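import Mathlib
import Pool.Agent.Lib.P81a4d5h.Basic

set_option autoImplicit false

universe u

open MvPolynomial

namespace Pool.Agent.Lib.P81a4d5h

variable {K : Type u} [Field K]

/-- the substitution eliminating the variable `i₀` by `x_{i₀} = - ∑ β_j x_j` -/
noncomputable def rho {l : ℕ} (i₀ : Fin (l+1)) (β : Fin l → K) :
    MvPolynomial (Fin (l+1)) K →ₐ[K] MvPolynomial (Fin l) K :=
  aeval (i₀.insertNth (- lin β) (fun j => X j))

/-- the section of `rho` -/
noncomputable def sig {l : ℕ} (i₀ : Fin (l+1)) :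
    MvPolynomial (Fin l) K →ₐ[K] MvPolynomial (Fin (l+1)) K :=
  rename i₀.succAbove

lemma rho_X_self {l : ℕ} (i₀ : Fin (l+1)) (β : Fin l → K) :
    rho i₀ β (X i₀) = - lin β := by
  simp [rho]

lemma rho_X_succAbove {l : ℕ} (i₀ : Fin (l+1)) (β : Fin l → K) (j : Fin l) :
    rho i₀ β (X (i₀.succAbove j)) = X j := by
  simp [rho]

lemma rho_sig {l : ℕ} (i₀ : Fin (l+1)) (β : Fin l → K) (f : MvPolynomial (Fin l) K) :
    rho i₀ β (sig i₀ f) = f := by
  have h : (rho i₀ β).comp (sig i₀) = AlgHom.id K _ := by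
    apply MvPolynomial.algHom_ext
    intro j
    simp [sig, rho_X_succAbove]
  exact congrArg (fun g => g f) h

lemma rho_surjective {l : ℕ} (i₀ : Fin (l+1)) (β : Fin l → K) :
    Function.Surjective (rho i₀ β) := fun f => ⟨sig i₀ f, rho_sig i₀ β f⟩

/-- restriction of a covector: the form `a` restricted to the hyperplane -/
def resC {l : ℕ} (i₀ : Fin (l+1)) (β : Fin l → K) (a : Fin (l+1) → K) : Fin l → K :=
  fun j => a (i₀.succAbove j) - a i₀ * β j

/-- lift of a vector into the hyperplane -/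
def liftV {l : ℕ} (i₀ : Fin (l+1)) (β : Fin l → K) (v : Fin l → K) : Fin (l+1) → K :=
  i₀.insertNth (- pr β v) v

lemma liftV_self {l : ℕ} (i₀ : Fin (l+1)) (β : Fin l → K) (v : Fin l → K) :
    liftV i₀ β v i₀ = - pr β v := by simp [liftV]

lemma liftV_succAbove {l : ℕ} (i₀ : Fin (l+1)) (β : Fin l → K) (v : Fin l → K) (j : Fin l) :
    liftV i₀ β v (i₀.succAbove j) = v j := by simp [liftV]

lemma rho_lin {l : ℕ} (i₀ : Fin (l+1)) (β : Fin l → K) (a : Fin (l+1) → K) :
    rho i₀ β (lin a) = lin (resC i₀ β a) := by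
  have hC : ∀ r : K, rho i₀ β (C r) = C r := by
    intro r
    rw [← algebraMap_eq, AlgHom.commutes]; rfl
  simp only [lin, map_sum, map_mul, hC]
  rw [Fin.sum_univ_succAbove _ i₀]
  simp only [rho_X_self, rho_X_succAbove, lin, resC, map_sub, map_mul]
  simp only [sub_mul, Finset.sum_sub_distrib, mul_neg, Finset.mul_sum]
  rw [neg_add_eq_sub]
  congr 1
  apply Finset.sum_congr rfl
  intro j _
  ring

lemma pr_resC {l : ℕ} (i₀ : Fin (l+1)) (β : Fin l → K) (a : Fin (l+1) → K) (v : Fin l → K) :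
    pr (resC i₀ β a) v = pr a (liftV i₀ β v) := by
  simp only [pr]
  rw [Fin.sum_univ_succAbove _ i₀]
  simp only [liftV_self, liftV_succAbove, resC, pr, sub_mul, Finset.sum_sub_distrib, mul_neg,
    Finset.mul_sum]
  rw [neg_add_eq_sub]
  congr 1
  apply Finset.sum_congr rfl
  intro j _
  ring

/-- Hasse derivatives commute with restriction to the hyperplane -/
lemma hD_rho {l : ℕ} (i₀ : Fin (l+1)) (β : Fin l → K) (v : Fin l → K) (k : ℕ)
    (f : MvPolynomial (Fin (l+1)) K) :
    hD v k (rho i₀ β f) = rho i₀ β (hD (liftV i₀ β v) k f) := by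
  have h : (tau v : MvPolynomial (Fin l) K →+* Polynomial (MvPolynomial (Fin l) K)).comp
        (rho i₀ β : MvPolynomial (Fin (l+1)) K →+* MvPolynomial (Fin l) K) =
      (Polynomial.mapRingHom (rho i₀ β : MvPolynomial (Fin (l+1)) K →+* MvPolynomial (Fin l) K)).comp
        (tau (liftV i₀ β v) : MvPolynomial (Fin (l+1)) K →+*
          Polynomial (MvPolynomial (Fin (l+1)) K)) := by
    apply MvPolynomial.ringHom_ext
    · intro r
      simp only [RingHom.comp_apply, RingHom.coe_coe]
      have h1 : rho i₀ β (C r) = C r := by rw [← algebraMap_eq, AlgHom.commutes]; rfl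
      have h2 : tau v (C r) = Polynomial.C (C r) := by rw [← algebraMap_eq, AlgHom.commutes]; rfl
      have h3 : tau (liftV i₀ β v) (C r) = Polynomial.C (C r) := by
        rw [← algebraMap_eq, AlgHom.commutes]; rfl
      rw [h1, h2, h3]
      simp [h1]
    · intro i
      simp only [RingHom.comp_apply, RingHom.coe_coe]
      have h1 : ∀ r : K, rho i₀ β (C r) = C r := by
        intro r; rw [← algebraMap_eq, AlgHom.commutes]; rfl
      refine Fin.succAboveCases i₀ ?_ ?_ i
      · rw [rho_X_self, map_neg, tau_lin]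
        simp only [tau, aeval_X, liftV_self]
        simp only [Polynomial.coe_mapRingHom, Polynomial.map_add, Polynomial.map_mul,
          Polynomial.map_C, Polynomial.map_X, RingHom.coe_coe, rho_X_self, map_neg,
          Polynomial.map_neg, h1]
        ring
      · intro j
        rw [rho_X_succAbove]
        simp only [tau, aeval_X, liftV_succAbove]
        simp only [Polynomial.coe_mapRingHom, Polynomial.map_add, Polynomial.map_mul,
          Polynomial.map_C, Polynomial.map_X, RingHom.coe_coe, rho_X_succAbove, h1]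
  have h2 := congrArg (fun g => (g f).coeff k) h
  simpa [hD_apply, Polynomial.coeff_map] using h2

/-- the kernel of the restriction -/
lemma rho_eq_zero_iff {l : ℕ} (i₀ : Fin (l+1)) (β : Fin l → K) (f : MvPolynomial (Fin (l+1)) K) :
    rho i₀ β f = 0 ↔ (X i₀ + sig i₀ (lin β)) ∣ f := by
  constructor
  · intro h
    rw [← Ideal.mem_span_singleton, ← Ideal.Quotient.eq_zero_iff_mem]
    have h1 : ((Ideal.Quotient.mkₐ K (Ideal.span {X i₀ + sig i₀ (lin β)})).comp (sig i₀)).comp
        (rho i₀ β) = Ideal.Quotient.mkₐ K (Ideal.span {X i₀ + sig i₀ (lin β)}) := by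
      apply MvPolynomial.algHom_ext
      intro i
      refine Fin.succAboveCases i₀ ?_ ?_ i
      · simp only [AlgHom.comp_apply, rho_X_self, map_neg]
        rw [neg_eq_iff_add_eq_zero, ← map_add]
        rw [Ideal.Quotient.mkₐ_eq_mk, Ideal.Quotient.eq_zero_iff_mem, Ideal.mem_span_singleton,
          add_comm (X i₀)]
      · intro j
        simp only [AlgHom.comp_apply, rho_X_succAbove]
        simp [sig]
    have h2 := congrArg (fun g => g f) h1
    simp only [AlgHom.comp_apply, h, map_zero] at h2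
    exact h2.symm
  · rintro ⟨g, rfl⟩
    rw [map_mul, map_add, rho_X_self, rho_sig]
    simp

lemma lin_eq_smul {l : ℕ} (i₀ : Fin (l+1)) (a : Fin (l+1) → K) (ha : a i₀ ≠ 0) :
    lin a = C (a i₀) * (X i₀ + sig i₀ (lin (fun j => a (i₀.succAbove j) / a i₀))) := by
  simp only [lin, sig, map_sum, map_mul, rename_C, rename_X]
  rw [Fin.sum_univ_succAbove _ i₀, mul_add]
  congr 1
  rw [Finset.mul_sum]
  apply Finset.sum_congr rfl
  intro j _
  rw [← mul_assoc, ← map_mul, mul_div_cancel₀ _ ha]

/-- kernel of restriction to the hyperplane `a = 0` -/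
lemma rho_eq_zero_iff' {l : ℕ} (i₀ : Fin (l+1)) (a : Fin (l+1) → K) (ha : a i₀ ≠ 0)
    (f : MvPolynomial (Fin (l+1)) K) :
    rho i₀ (fun j => a (i₀.succAbove j) / a i₀) f = 0 ↔ lin a ∣ f := by
  rw [rho_eq_zero_iff, lin_eq_smul i₀ a ha]
  have hu : IsUnit (C (a i₀) : MvPolynomial (Fin (l+1)) K) := (isUnit_iff_ne_zero.2 ha).map C
  rw [hu.mul_left_dvd]

end Pool.Agent.Lib.P81a4d5h
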