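import Mathlib
import Pool.Agent.Lib.P81a4d5h.Graded

set_option autoImplicit false

universe u
set_option linter.unusedSectionVars false

open MvPolynomial

namespace Pool.Agent.Lib.P81a4d5h

variable {K : Type u} [Field K] {ι : ℕ → Type} [∀ p, Fintype (ι p)] [∀ p, DecidableEq (ι p)]

/-- contraction and wedge operators with the canonical anticommutation relations -/
structure Ops (K : Type u) [Field K] (ι : ℕ → Type) [∀ p, Fintype (ι p)] [∀ p, DecidableEq (ι p)]
    (l : ℕ) where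
  kap : Fin l → ∀ p, Matrix (ι p) (ι (p+1)) K
  eps : Fin l → ∀ p, Matrix (ι (p+1)) (ι p) K
  car0 : ∀ i j, kap i 0 * eps j 0 = if i = j then 1 else 0
  car : ∀ i j p, kap i (p+1) * eps j (p+1) + eps j p * kap i p = if i = j then 1 else 0

/-- wedge by a vector -/
def Ops.epsV {l : ℕ} (O : Ops K ι l) (v : Fin l → K) (p : ℕ) : Matrix (ι (p+1)) (ι p) K :=
  ∑ i, v i • O.eps i p

/-- the systems -/
structure Sys {l : ℕ} (O : Ops K ι l) (L : Multiset (Fin l → K)) (T : ℤ)
    (N : ∀ p, Submodule K (ι p → MvPolynomial (Fin l) K)) : Prop where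
  mul : ∀ p (f : MvPolynomial (Fin l) K) w, w ∈ N p → f • w ∈ N p
  hom : ∀ p (j : ℕ) w, w ∈ N p → cw (homogeneousComponent j) w ∈ N p
  top : ∀ p : ℕ, T < p → N p = ⊥
  kap : ∀ i p w, w ∈ N (p+1) → act (O.kap i p) w ∈ N p
  kk0 : ∀ i p w, w ∈ N (p+2) → act (O.kap i p) (act (O.kap i (p+1)) w) = 0
  kk : ∀ i j p w, w ∈ N (p+2) → act (O.kap i p) (act (O.kap j (p+1)) w) +
    act (O.kap j p) (act (O.kap i (p+1)) w) = 0
  der : ∀ v k p w, gg L v • w ∈ N p → gg L v • cw (hD v k) w ∈ N p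
  eps : ∀ v p w, gg L v • w ∈ N p → gg L v • act (O.epsV v p) w ∈ N (p+1)

lemma lin_smul_injective {a : Type} {l : ℕ} {α : Fin l → K} (h : α ≠ 0)
    {w : a → MvPolynomial (Fin l) K} (hw : lin α • w = 0) : w = 0 := by
  ext1 i
  have := congrFun hw i
  simp only [Pi.smul_apply, smul_eq_mul, Pi.zero_apply, mul_eq_zero] at this
  exact this.resolve_left (lin_ne_zero h)

/-- multiplication by a polynomial as a `K`-linear map -/
noncomputable def mulU {a : Type} {l : ℕ} (f : MvPolynomial (Fin l) K) :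
    (a → MvPolynomial (Fin l) K) →ₗ[K] (a → MvPolynomial (Fin l) K) :=
  cw (LinearMap.mulLeft K f)

lemma mulU_apply {a : Type} {l : ℕ} (f : MvPolynomial (Fin l) K)
    (w : a → MvPolynomial (Fin l) K) : mulU f w = f • w := rfl

/-- colon by a linear form -/
noncomputable def colon {l : ℕ} (α : Fin l → K) (N : ∀ p, Submodule K (ι p → MvPolynomial (Fin l) K)) :
    ∀ p, Submodule K (ι p → MvPolynomial (Fin l) K) :=
  fun p => (N p).comap (mulU (lin α))

lemma mem_colon {l : ℕ} {α : Fin l → K} {N : ∀ p, Submodule K (ι p → MvPolynomial (Fin l) K)}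
    {p : ℕ} {w : ι p → MvPolynomial (Fin l) K} : w ∈ colon α N p ↔ lin α • w ∈ N p := Iff.rfl

lemma Sys.colon {l : ℕ} {O : Ops K ι l} {α : Fin l → K} {L : Multiset (Fin l → K)} {T : ℤ}
    {N : ∀ p, Submodule K (ι p → MvPolynomial (Fin l) K)} (h : Sys O (α ::ₘ L) T N)
    (hα : α ≠ 0) : Sys O L T (colon α N) where
  mul p f w hw := by
    rw [mem_colon, smul_comm]
    exact h.mul p f _ hw
  hom p j w hw := by
    rw [mem_colon] at hw ⊢
    have h1 := h.hom p (j+1) _ hw
    have h2 : cw (homogeneousComponent (j+1)) (lin α • w) =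
        lin α • cw (homogeneousComponent j) w := by
      ext1 i
      simp only [cw_apply, Pi.smul_apply, smul_eq_mul, hc_lin_mul]
    rwa [h2] at h1
  top p hp := by
    rw [Submodule.eq_bot_iff]
    intro w hw
    rw [mem_colon, h.top p hp, Submodule.mem_bot] at hw
    exact lin_smul_injective hα hw
  kap i p w hw := by
    rw [mem_colon, ← act_smul]
    exact h.kap i p _ hw
  kk0 i p w hw := by
    have := h.kk0 i p _ hw
    rw [mulU_apply, act_smul, act_smul] at this
    exact lin_smul_injective hα this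
  kk i j p w hw := by
    have := h.kk i j p _ hw
    rw [mulU_apply, act_smul, act_smul, act_smul, act_smul, ← smul_add] at this
    exact lin_smul_injective hα this
  der v k p w hw := by
    rw [mem_colon] at hw ⊢
    by_cases hv : pr α v = 0
    · rw [smul_comm, ← gg_cons_of_eq L v α hv] at hw
      have h1 := h.der v k p _ hw
      rw [cw_hD_lin_smul_of_zero v α hv, gg_cons_of_eq L v α hv, smul_comm] at h1
      exact h1
    · rw [← mul_smul, ← gg_cons_of_ne L v α hv] at hw
      have h1 := h.der v k p _ hw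
      rwa [gg_cons_of_ne L v α hv, mul_smul] at h1
  eps v p w hw := by
    rw [mem_colon] at hw ⊢
    by_cases hv : pr α v = 0
    · rw [smul_comm, ← gg_cons_of_eq L v α hv] at hw
      have h1 := h.eps v p _ hw
      rw [act_smul, gg_cons_of_eq L v α hv, smul_comm] at h1
      exact h1
    · rw [← mul_smul, ← gg_cons_of_ne L v α hv] at hw
      have h1 := h.eps v p _ hw
      rwa [gg_cons_of_ne L v α hv, mul_smul] at h1

lemma Sys.drop_zero {l : ℕ} {O : Ops K ι l} {α : Fin l → K} {L : Multiset (Fin l → K)} {T : ℤ}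
    {N : ∀ p, Submodule K (ι p → MvPolynomial (Fin l) K)} (h : Sys O (α ::ₘ L) T N)
    (hα : α = 0) : Sys O L T N := by
  have hg : ∀ v, gg (α ::ₘ L) v = gg L v := by
    intro v
    apply gg_cons_of_eq
    simp [hα, pr]
  refine ⟨h.mul, h.hom, h.top, h.kap, h.kk0, h.kk, ?_, ?_⟩
  · intro v k p w hw
    have := h.der v k p w
    rw [hg] at this
    exact this hw
  · intro v p w hw
    have := h.eps v p w
    rw [hg] at this
    exact this hw

/-- restricted operators -/
def Ops.res {l : ℕ} (O : Ops K ι (l+1)) (i₀ : Fin (l+1)) (β : Fin l → K) : Ops K ι l where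
  kap j p := O.kap (i₀.succAbove j) p
  eps j p := O.eps (i₀.succAbove j) p - β j • O.eps i₀ p
  car0 i j := by
    rw [Matrix.mul_sub, Matrix.mul_smul, O.car0, O.car0, if_neg (Fin.succAbove_ne i₀ i)]
    simp [Fin.succAbove_right_inj]
  car i j p := by
    have h1 := O.car (i₀.succAbove i) (i₀.succAbove j) p
    have h2 := O.car (i₀.succAbove i) i₀ p
    rw [if_neg (Fin.succAbove_ne i₀ i)] at h2
    simp only [Fin.succAbove_right_inj] at h1
    rw [Matrix.mul_sub, Matrix.sub_mul, Matrix.mul_smul, Matrix.smul_mul, ← h1]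
    have h3 : β j • (O.kap (i₀.succAbove i) (p + 1) * O.eps i₀ (p + 1)) +
        β j • (O.eps i₀ p * O.kap (i₀.succAbove i) p) = 0 := by
      rw [← smul_add, h2, smul_zero]
    rw [← sub_eq_zero]
    have h4 : ∀ (A B C D : Matrix (ι (p+1)) (ι (p+1)) K), (A - C) + (B - D) - (A + B) = -(C + D) := by
      intros; abel
    rw [h4, h3, neg_zero]

lemma Ops.res_epsV {l : ℕ} (O : Ops K ι (l+1)) (i₀ : Fin (l+1)) (β : Fin l → K) (v : Fin l → K)
    (p : ℕ) : (O.res i₀ β).epsV v p = O.epsV (liftV i₀ β v) p := by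
  rw [Ops.epsV, Ops.epsV, Fin.sum_univ_succAbove _ i₀]
  simp only [liftV_self, liftV_succAbove, Ops.res, smul_sub, Finset.sum_sub_distrib, smul_smul, pr]
  rw [neg_smul, Finset.sum_smul, neg_add_eq_sub]
  congr 1
  apply Finset.sum_congr rfl
  intro j _
  rw [mul_comm]

/-- restriction of a family to a hyperplane -/
noncomputable def resN {l : ℕ} (i₀ : Fin (l+1)) (β : Fin l → K)
    (N : ∀ p, Submodule K (ι p → MvPolynomial (Fin (l+1)) K)) :
    ∀ p, Submodule K (ι p → MvPolynomial (Fin l) K) :=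
  fun p => (N p).map (cw (rho i₀ β).toLinearMap)

lemma gg_res {l : ℕ} (i₀ : Fin (l+1)) (β : Fin l → K) (L : Multiset (Fin (l+1) → K))
    (v : Fin l → K) : gg (L.map (resC i₀ β)) v = rho i₀ β (gg L (liftV i₀ β v)) := by
  induction L using Multiset.induction_on with
  | empty => simp [gg_zero]
  | cons α L ih =>
    rw [Multiset.map_cons]
    by_cases h : pr α (liftV i₀ β v) = 0
    · rw [gg_cons_of_eq _ _ _ h, gg_cons_of_eq, ih]
      rw [pr_resC, h]
    · rw [gg_cons_of_ne _ _ _ h, gg_cons_of_ne, ih, map_mul, rho_lin]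
      rwa [pr_resC]

lemma Sys.exists_lift {l : ℕ} {O : Ops K ι (l+1)} {L : Multiset (Fin (l+1) → K)} {T : ℤ}
    {N : ∀ p, Submodule K (ι p → MvPolynomial (Fin (l+1)) K)} (h : Sys O L T N)
    (i₀ : Fin (l+1)) (β : Fin l → K) (v : Fin l → K) (p : ℕ) (w : ι p → MvPolynomial (Fin l) K)
    (hw : gg (L.map (resC i₀ β)) v • w ∈ resN i₀ β N p) :
    ∃ u, cw (rho i₀ β).toLinearMap u = w ∧ gg L (liftV i₀ β v) • u ∈ N p := by
  set g := gg L (liftV i₀ β v) with hg
  set N' : Submodule K (ι p → MvPolynomial (Fin l) K) :=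
    ((N p).comap (mulU g)).map (cw (rho i₀ β).toLinearMap) with hN'
  have key : w ∈ N' := by
    apply saturation_gg v (L.map (resC i₀ β)) N'
    · rintro f _ ⟨u, hu, rfl⟩
      refine ⟨sig i₀ f • u, ?_, ?_⟩
      · show g • (sig i₀ f • u) ∈ N p
        rw [smul_comm]
        exact h.mul p _ _ hu
      · rw [cw_algHom_smul, rho_sig]
    · rintro k _ ⟨u, hu, rfl⟩
      refine ⟨cw (hD (liftV i₀ β v) k) u, h.der _ k p u hu, ?_⟩
      ext1 i
      simp only [cw_apply, AlgHom.toLinearMap_apply, hD_rho]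
    · obtain ⟨u, hu, hue⟩ := hw
      exact ⟨u, h.mul p g u hu, hue⟩
  obtain ⟨u, hu, hue⟩ := key
  exact ⟨u, hue, hu⟩

lemma Sys.restrict {l : ℕ} {O : Ops K ι (l+1)} {L : Multiset (Fin (l+1) → K)} {T : ℤ}
    {N : ∀ p, Submodule K (ι p → MvPolynomial (Fin (l+1)) K)} (h : Sys O L T N)
    (i₀ : Fin (l+1)) (β : Fin l → K) :
    Sys (O.res i₀ β) (L.map (resC i₀ β)) T (resN i₀ β N) where
  mul := by
    rintro p f _ ⟨u, hu, rfl⟩
    refine ⟨sig i₀ f • u, h.mul p _ _ hu, ?_⟩
    rw [cw_algHom_smul, rho_sig]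
  hom := by
    rintro p j _ ⟨u, hu, rfl⟩
    refine ⟨cw (homogeneousComponent j) u, h.hom p j u hu, ?_⟩
    ext1 i
    simp only [cw_apply, AlgHom.toLinearMap_apply, hc_rho]
  top p hp := by rw [resN, h.top p hp, Submodule.map_bot]
  kap := by
    rintro i p _ ⟨u, hu, rfl⟩
    refine ⟨act (O.kap (i₀.succAbove i) p) u, h.kap _ p u hu, ?_⟩
    exact (act_cw _ _ _).symm
  kk0 := by
    rintro i p _ ⟨u, hu, rfl⟩
    show act (O.kap (i₀.succAbove i) p) (act (O.kap (i₀.succAbove i) (p+1)) _) = 0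
    rw [act_cw, act_cw, h.kk0 _ p u hu, map_zero]
  kk := by
    rintro i j p _ ⟨u, hu, rfl⟩
    show act (O.kap (i₀.succAbove i) p) (act (O.kap (i₀.succAbove j) (p+1)) _) +
      act (O.kap (i₀.succAbove j) p) (act (O.kap (i₀.succAbove i) (p+1)) _) = 0
    rw [act_cw, act_cw, act_cw, act_cw, ← map_add, h.kk _ _ p u hu, map_zero]
  der v k p w hw := by
    obtain ⟨u, rfl, hu⟩ := h.exists_lift i₀ β v p w hw
    refine ⟨gg L (liftV i₀ β v) • cw (hD (liftV i₀ β v) k) u, h.der _ k p u hu, ?_⟩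
    rw [cw_algHom_smul, gg_res]
    congr 1
    ext1 i
    simp only [cw_apply, AlgHom.toLinearMap_apply, hD_rho]
  eps v p w hw := by
    obtain ⟨u, rfl, hu⟩ := h.exists_lift i₀ β v p w hw
    refine ⟨gg L (liftV i₀ β v) • act (O.epsV (liftV i₀ β v) p) u, h.eps _ p u hu, ?_⟩
    rw [cw_algHom_smul, gg_res, Ops.res_epsV, act_cw]

/-! ### counting -/

/-- the Euler characteristic in total degree `k` -/
noncomputable def cc {l : ℕ} (N : ∀ p, Submodule K (ι p → MvPolynomial (Fin l) K)) (k : ℕ) : ℤ :=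
  ∑ p ∈ Finset.range (k+1), (-1) ^ p * (Module.finrank K (WW (N p) (k - p)) : ℤ)

section se1

variable {l : ℕ} {O : Ops K ι (l+1)} {L : Multiset (Fin (l+1) → K)} {T : ℤ}
    {N : ∀ p, Submodule K (ι p → MvPolynomial (Fin (l+1)) K)}

lemma map_WW (h : Sys O L T N) (i₀ : Fin (l+1)) (β : Fin l → K) (p j : ℕ) :
    (WW (N p) j).map (cw (rho i₀ β).toLinearMap) = WW (resN i₀ β N p) j := by
  have hh : ∀ u : ι p → MvPolynomial (Fin (l+1)) K,
      cw (rho i₀ β).toLinearMap (cw (homogeneousComponent j) u) =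
        cw (homogeneousComponent j) (cw (rho i₀ β).toLinearMap u) := by
    intro u
    ext1 i
    simp only [cw_apply, AlgHom.toLinearMap_apply, hc_rho]
  ext w
  constructor
  · rintro ⟨u, hu, rfl⟩
    refine ⟨⟨u, hu.1, rfl⟩, ?_⟩
    intro i
    have h1 : u i = homogeneousComponent j (u i) := (homogeneousComponent_eq_self (hu.2 i)).symm
    rw [cw_apply, AlgHom.toLinearMap_apply, h1, ← hc_rho]
    exact homogeneousComponent_isHomogeneous j _
  · rintro ⟨⟨u, hu, rfl⟩, hw⟩
    refine ⟨cw (homogeneousComponent j) u, ⟨h.hom p j u hu, ?_⟩, ?_⟩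
    · intro i
      exact homogeneousComponent_isHomogeneous j _
    · rw [hh]
      ext1 i
      exact homogeneousComponent_eq_self (hw i)

lemma ker_WW_succ (α : Fin (l+1) → K) (i₀ : Fin (l+1)) (hα : α i₀ ≠ 0) (p j : ℕ) :
    (WW (N p) (j+1)) ⊓ LinearMap.ker
        (cw (a := ι p) (rho i₀ (fun j => α (i₀.succAbove j) / α i₀)).toLinearMap) =
      (WW (colon α N p) j).map (mulU (lin α)) := by
  have hα0 : α ≠ 0 := fun h => hα (by rw [h]; rfl)
  ext w
  constructor
  · rintro ⟨⟨hw1, hw2⟩, hw3⟩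
    have hdvd : ∀ i, ∃ u, w i = lin α * u := by
      intro i
      have := congrFun hw3 i
      simp only [cw_apply, AlgHom.toLinearMap_apply, Pi.zero_apply] at this
      exact (rho_eq_zero_iff' i₀ α hα _).1 this
    choose u hu using hdvd
    have hwu : w = lin α • u := by ext1 i; exact hu i
    refine ⟨u, ⟨?_, ?_⟩, hwu.symm⟩
    · show lin α • u ∈ N p
      rw [← hwu]; exact hw1
    · intro i
      have h1 := homogeneousComponent_eq_self (hw2 i)
      rw [hu i, hc_lin_mul] at h1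
      have h2 := mul_left_cancel₀ (lin_ne_zero hα0) h1
      rw [← h2]
      exact homogeneousComponent_isHomogeneous j _
  · rintro ⟨u, ⟨hu1, hu2⟩, rfl⟩
    refine ⟨⟨hu1, ?_⟩, ?_⟩
    · intro i
      have h3 : (lin α * u i).IsHomogeneous (1 + j) := (lin_isHomogeneous α).mul (hu2 i)
      rw [add_comm 1 j] at h3
      exact h3
    · show cw _ _ = 0
      ext1 i
      simp only [cw_apply, AlgHom.toLinearMap_apply, Pi.zero_apply]
      rw [rho_eq_zero_iff' i₀ α hα]
      exact ⟨u i, rfl⟩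

lemma ker_WW_zero (α : Fin (l+1) → K) (i₀ : Fin (l+1)) (hα : α i₀ ≠ 0) (p : ℕ) :
    (WW (N p) 0) ⊓ LinearMap.ker
        (cw (a := ι p) (rho i₀ (fun j => α (i₀.succAbove j) / α i₀)).toLinearMap) = ⊥ := by
  rw [Submodule.eq_bot_iff]
  rintro w ⟨⟨hw1, hw2⟩, hw3⟩
  ext1 i
  have := congrFun hw3 i
  simp only [cw_apply, AlgHom.toLinearMap_apply, Pi.zero_apply] at this
  obtain ⟨u, hu⟩ := (rho_eq_zero_iff' i₀ α hα _).1 this
  have h1 := homogeneousComponent_eq_self (hw2 i)
  rw [hu, hc_zero_lin_mul] at h1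
  rw [hu, ← h1]
  rfl

lemma cc_zero (h : Sys O L T N) (α : Fin (l+1) → K) (i₀ : Fin (l+1)) (hα : α i₀ ≠ 0) :
    cc N 0 = cc (resN i₀ (fun j => α (i₀.succAbove j) / α i₀) N) 0 := by
  simp only [cc, zero_add, Finset.range_one, Finset.sum_singleton, pow_zero, one_mul]
  rw [finrank_split (WW (N 0) (0-0)) (cw (rho i₀ (fun j => α (i₀.succAbove j) / α i₀)).toLinearMap),
    map_WW h, ker_WW_zero α i₀ hα]
  simp

lemma cc_succ (h : Sys O L T N) (α : Fin (l+1) → K) (i₀ : Fin (l+1)) (hα : α i₀ ≠ 0) (k : ℕ) :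
    cc N (k+1) = cc (colon α N) k + cc (resN i₀ (fun j => α (i₀.succAbove j) / α i₀) N) (k+1) := by
  have hα0 : α ≠ 0 := fun h => hα (by rw [h]; rfl)
  have e0 : ∀ p, (Module.finrank K (WW (N p) 0) : ℤ) =
      Module.finrank K (WW (resN i₀ (fun j => α (i₀.succAbove j) / α i₀) N p) 0) := by
    intro p
    rw [finrank_split (WW (N p) 0) (cw (rho i₀ (fun j => α (i₀.succAbove j) / α i₀)).toLinearMap),
      map_WW h, ker_WW_zero α i₀ hα]
    simp
  have e1 : ∀ p j, (Module.finrank K (WW (N p) (j+1)) : ℤ) =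
      Module.finrank K (WW (colon α N p) j) +
      Module.finrank K (WW (resN i₀ (fun j => α (i₀.succAbove j) / α i₀) N p) (j+1)) := by
    intro p j
    rw [finrank_split (WW (N p) (j+1)) (cw (rho i₀ (fun j => α (i₀.succAbove j) / α i₀)).toLinearMap),
      map_WW h, ker_WW_succ α i₀ hα, finrank_map_inj]
    · push_cast
      ring
    · rw [← LinearMap.ker_eq_bot, Submodule.eq_bot_iff]
      intro w hw
      exact lin_smul_injective hα0 hw
  rw [cc, Finset.sum_range_succ, cc, cc, Finset.sum_range_succ (n := k+1)]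
  rw [Nat.sub_self, e0, ← add_assoc, ← Finset.sum_add_distrib]
  congr 1
  apply Finset.sum_congr rfl
  intro p hp
  have hpk : p ≤ k := by
    have := Finset.mem_range.1 hp
    omega
  have h1 : k + 1 - p = (k - p) + 1 := by omega
  rw [h1, e1]
  ring

end se1

/-! ### the product step -/

section product

variable {l : ℕ} {O : Ops K ι (l+1)} {L : Multiset (Fin (l+1) → K)} {T : ℤ}
    {N : ∀ p, Submodule K (ι p → MvPolynomial (Fin (l+1)) K)}

/-- the kernel of the contraction by `i₀` -/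
noncomputable def kerN (O : Ops K ι (l+1)) (i₀ : Fin (l+1))
    (N : ∀ p, Submodule K (ι p → MvPolynomial (Fin l) K)) :
    ∀ p, Submodule K (ι p → MvPolynomial (Fin l) K)
  | 0 => N 0
  | (p+1) => N (p+1) ⊓ LinearMap.ker (act (l := l) (O.kap i₀ p))

lemma kerN_le (i₀ : Fin (l+1)) (N : ∀ p, Submodule K (ι p → MvPolynomial (Fin l) K)) (p : ℕ) :
    kerN O i₀ N p ≤ N p := by
  cases p with
  | zero => exact le_refl _
  | succ p => exact inf_le_left

/-- contraction kills the elements of `kerN` (in positive degree) and `κ ε = 1` on `kerN` -/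
lemma kap_eps_kerN (i₀ : Fin (l+1)) (N : ∀ p, Submodule K (ι p → MvPolynomial (Fin l) K)) (p : ℕ)
    (w : ι p → MvPolynomial (Fin l) K) (hw : w ∈ kerN O i₀ N p) (j : Fin (l+1)) :
    act (O.kap i₀ p) (act (O.eps j p) w) = if i₀ = j then w else 0 := by
  cases p with
  | zero =>
    rw [act_act, O.car0]
    split_ifs
    · rw [act_one]
    · rw [act_zero_mat]
  | succ p =>
    have h1 := O.car i₀ j p
    have h2 : act (O.kap i₀ p) w = 0 := hw.2
    have h3 : act (O.kap i₀ (p+1) * O.eps j (p+1) + O.eps j p * O.kap i₀ p) w =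
        act (if i₀ = j then (1 : Matrix (ι (p+1)) (ι (p+1)) K) else 0) w := by rw [h1]
    rw [act_add_mat, ← act_act, ← act_act, h2, map_zero, add_zero] at h3
    rw [h3]
    split_ifs
    · rw [act_one]
    · rw [act_zero_mat]

/-- The product step: `N₀` a system stable under both operators of index `i₀`; then the kernel
of the contraction is a system with `T` lowered by one. -/
lemma sys_kerN (i₀ : Fin (l+1)) (L₀ : Multiset (Fin l → K))
    (N₀ : ∀ p, Submodule K (ι p → MvPolynomial (Fin l) K))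
    (h : Sys (O.res i₀ 0) L₀ T N₀)
    (hkap : ∀ p w, w ∈ N₀ (p+1) → act (O.kap i₀ p) w ∈ N₀ p)
    (heps : ∀ p w, w ∈ N₀ p → act (O.eps i₀ p) w ∈ N₀ (p+1))
    (hkk : ∀ j p w, w ∈ N₀ (p+2) → act (O.kap i₀ p) (act (O.kap j (p+1)) w) +
      act (O.kap j p) (act (O.kap i₀ (p+1)) w) = 0) :
    Sys (O.res i₀ 0) L₀ (T-1) (kerN O i₀ N₀) where
  mul p f w hw := by
    cases p with
    | zero => exact h.mul 0 f w hw
    | succ p =>
      refine ⟨h.mul _ f w hw.1, ?_⟩
      show act _ _ = 0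
      rw [act_smul, show act (O.kap i₀ p) w = 0 from hw.2, smul_zero]
  hom p j w hw := by
    cases p with
    | zero => exact h.hom 0 j w hw
    | succ p =>
      refine ⟨h.hom _ j w hw.1, ?_⟩
      show act _ _ = 0
      rw [act_cw, show act (O.kap i₀ p) w = 0 from hw.2, map_zero]
  top p hp := by
    rw [Submodule.eq_bot_iff]
    intro w hw
    have h1 : act (O.eps i₀ p) w ∈ N₀ (p+1) := heps p w (kerN_le i₀ N₀ p hw)
    rw [h.top (p+1) (by push_cast; omega), Submodule.mem_bot] at h1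
    have h2 := kap_eps_kerN i₀ N₀ p w hw i₀
    rw [if_pos rfl, h1, map_zero] at h2
    exact h2.symm
  kap i p w hw := by
    have h1 : act (O.kap (i₀.succAbove i) p) w ∈ N₀ p := h.kap i p w (kerN_le i₀ N₀ _ hw)
    cases p with
    | zero => exact h1
    | succ p =>
      refine ⟨h1, ?_⟩
      show act (O.kap i₀ p) (act (O.kap (i₀.succAbove i) (p+1)) w) = 0
      have h2 := hkk (i₀.succAbove i) p w hw.1
      rwa [show act (O.kap i₀ (p+1)) w = 0 from hw.2, map_zero, add_zero] at h2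
  kk0 i p w hw := h.kk0 i p w (kerN_le i₀ N₀ _ hw)
  kk i j p w hw := h.kk i j p w (kerN_le i₀ N₀ _ hw)
  der v k p w hw := by
    cases p with
    | zero => exact h.der v k 0 w hw
    | succ p =>
      refine ⟨h.der v k _ w hw.1, ?_⟩
      show act _ _ = 0
      have h1 : act (O.kap i₀ p) (gg L₀ v • w) = 0 := hw.2
      have h3 : act (O.kap i₀ p) w = 0 := by
        rw [act_smul] at h1
        have hg : gg L₀ v ≠ 0 := gg_ne_zero L₀ v
        ext1 i
        have := congrFun h1 i
        simp only [Pi.smul_apply, smul_eq_mul, Pi.zero_apply, mul_eq_zero] at this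
        exact this.resolve_left hg
      rw [act_smul, act_cw, h3, map_zero, smul_zero]
  eps v p w hw := by
    refine ⟨h.eps v p w (kerN_le i₀ N₀ _ hw), ?_⟩
    show act _ _ = 0
    have hcomm : gg L₀ v • act ((O.res i₀ 0).epsV v p) w = act ((O.res i₀ 0).epsV v p) (gg L₀ v • w) := by
      rw [act_smul]
    rw [hcomm, Ops.epsV, act_sum_mat, map_sum]
    apply Finset.sum_eq_zero
    intro j _
    have h1 : (O.res i₀ 0).eps j p = O.eps (i₀.succAbove j) p := by
      simp [Ops.res]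
    rw [act_smul_mat, map_smul, h1, kap_eps_kerN i₀ N₀ p _ hw, if_neg (Fin.ne_succAbove i₀ j),
      smul_zero]

end product

end Pool.Agent.Lib.P81a4d5h
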