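import Mathlib
import Pool.Agent.Lib.P81a4d5h.System

set_option autoImplicit false

universe u
set_option linter.unusedSectionVars false

open MvPolynomial

namespace Pool.Agent.Lib.P81a4d5h

variable {K : Type u} [Field K]

/-! ### the concrete operators on functions of tuples -/

/-- contraction matrix -/
def kapT (K : Type u) [Field K] (l : ℕ) (i : Fin l) (p : ℕ) :
    Matrix (Fin p → Fin l) (Fin (p+1) → Fin l) K :=
  fun J J' => if J' = Fin.cons i J then 1 else 0

/-- wedge matrix -/
def epsT (K : Type u) [Field K] (l : ℕ) (i : Fin l) (p : ℕ) :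
    Matrix (Fin (p+1) → Fin l) (Fin p → Fin l) K :=
  fun J J' => ∑ k : Fin (p+1), (-1) ^ (k : ℕ) *
    ((if J k = i then 1 else 0) * (if J' = k.removeNth J then 1 else 0))

lemma act_kapT {l m : ℕ} (i : Fin l) (p : ℕ) (w : (Fin (p+1) → Fin l) → MvPolynomial (Fin m) K)
    (J : Fin p → Fin l) : act (kapT K l i p) w J = w (Fin.cons i J) := by
  rw [act_apply]
  simp [kapT]

lemma act_epsT {l m : ℕ} (i : Fin l) (p : ℕ) (w : (Fin p → Fin l) → MvPolynomial (Fin m) K)
    (J : Fin (p+1) → Fin l) : act (epsT K l i p) w J =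
      ∑ k : Fin (p+1), ((-1 : K) ^ (k : ℕ) * (if J k = i then 1 else 0)) • w (k.removeNth J) := by
  rw [act_apply]
  simp only [epsT, Finset.sum_smul]
  rw [Finset.sum_comm]
  apply Finset.sum_congr rfl
  intro k _
  rw [Finset.sum_eq_single (k.removeNth J)]
  · simp
  · intro b _ hb
    rw [if_neg hb]
    simp
  · simp

lemma kapT_mul_apply {l p : ℕ} {c : Type} (i : Fin l) (M : Matrix (Fin (p+1) → Fin l) c K)
    (J : Fin p → Fin l) (x : c) : (kapT K l i p * M) J x = M (Fin.cons i J) x := by
  rw [Matrix.mul_apply]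
  simp [kapT]

lemma opsT_car0 (l : ℕ) (i j : Fin l) :
    kapT K l i 0 * epsT K l j 0 = if i = j then 1 else 0 := by
  ext J J'
  rw [kapT_mul_apply]
  have h : J' = J := Subsingleton.elim _ _
  subst h
  simp only [epsT]
  have h2 : ∀ x : Fin (0+1), J' = (Fin.removeNth x (Fin.cons i J' : Fin 1 → Fin l)) :=
    fun x => Subsingleton.elim _ _
  by_cases hij : i = j
  · rw [if_pos hij, Finset.sum_eq_single 0]
    · rw [if_pos (h2 0)]
      simp [hij]
    · intro b _ hb
      exact absurd (Fin.ext (by have := b.2; simp only [Fin.val_zero]; omega)) hb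
    · simp
  · rw [if_neg hij]
    apply Finset.sum_eq_zero
    intro x _
    have hx : x = 0 := Fin.ext (by have := x.2; simp only [Fin.val_zero]; omega)
    subst hx
    rw [Fin.cons_zero, if_neg hij]
    simp

lemma opsT_car (l : ℕ) (i j : Fin l) (p : ℕ) :
    kapT K l i (p+1) * epsT K l j (p+1) + epsT K l j p * kapT K l i p = if i = j then 1 else 0 := by
  ext J J'
  rw [Matrix.add_apply, kapT_mul_apply]
  simp only [epsT]
  rw [Fin.sum_univ_succ]
  have h1 : (∑ x : Fin (p+1), (-1 : K) ^ ((x.succ : Fin (p+2)) : ℕ) *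
      ((if (Fin.cons i J : Fin (p+2) → Fin l) x.succ = j then 1 else 0) *
        (if J' = x.succ.removeNth (Fin.cons i J : Fin (p+2) → Fin l) then 1 else 0))) =
      - (epsT K l j p * kapT K l i p) J J' := by
    rw [Matrix.mul_apply]
    simp only [epsT, kapT, Finset.sum_mul]
    rw [Finset.sum_comm, ← Finset.sum_neg_distrib]
    apply Finset.sum_congr rfl
    intro x _
    rw [Finset.sum_eq_single (x.removeNth J)]
    · have h3 : x.succ.removeNth (Fin.cons i J : Fin (p+2) → Fin l) =
          (Fin.cons i (x.removeNth J) : Fin (p+1) → Fin l) := by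
        ext1 t
        refine Fin.cases ?_ ?_ t
        · simp [Fin.removeNth]
        · intro t
          simp [Fin.removeNth]
      rw [h3]
      simp only [Fin.cons_succ, Fin.val_succ, pow_succ, if_true, mul_one]
      ring
    · intro b _ hb
      rw [if_neg hb]
      simp
    · simp
  rw [h1]
  have h2 : (Fin.removeNth 0 (Fin.cons i J : Fin (p+2) → Fin l)) = J := by
    ext1 t
    simp [Fin.removeNth]
  rw [h2]
  by_cases hij : i = j
  · subst hij
    simp only [Fin.cons_zero, if_true, Matrix.one_apply]
    simp only [Fin.val_zero, pow_zero, one_mul]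
    by_cases hJ : J = J'
    · subst hJ
      simp
    · rw [if_neg (fun h => hJ h.symm), if_neg hJ]
      ring
  · simp only [Fin.cons_zero, if_neg hij, Matrix.zero_apply]
    ring

/-- the operators on all functions of tuples -/
def opsT (K : Type u) [Field K] (l : ℕ) : Ops K (fun p => Fin p → Fin l) l where
  kap i p := kapT K l i p
  eps i p := epsT K l i p
  car0 := opsT_car0 l
  car := opsT_car l

/-! ### alternating functions -/

/-- alternating functions of tuples -/
def AltF (l : ℕ) {m : ℕ} (p : ℕ) (w : (Fin p → Fin l) → MvPolynomial (Fin m) K) : Prop :=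
  (∀ J, ¬ Function.Injective J → w J = 0) ∧
    ∀ J (a b : Fin p), a ≠ b → w (J ∘ Equiv.swap a b) = - w J

/-- the multilinear extension -/
noncomputable def mext {l m p : ℕ} (w : (Fin p → Fin l) → MvPolynomial (Fin m) K) :
    MultilinearMap (MvPolynomial (Fin m) K) (fun _ : Fin p => Fin l → MvPolynomial (Fin m) K)
      (MvPolynomial (Fin m) K) :=
  ∑ J : Fin p → Fin l, w J • (MultilinearMap.mkPiAlgebra (MvPolynomial (Fin m) K) (Fin p)
    (MvPolynomial (Fin m) K)).compLinearMap (fun s => LinearMap.proj (J s))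

lemma mext_apply {l m p : ℕ} (w : (Fin p → Fin l) → MvPolynomial (Fin m) K)
    (D : Fin p → Fin l → MvPolynomial (Fin m) K) :
    mext w D = ∑ J : Fin p → Fin l, w J * ∏ s, D s (J s) := by
  simp [mext, MultilinearMap.compLinearMap_apply]

lemma mext_alt {l m p : ℕ} (w : (Fin p → Fin l) → MvPolynomial (Fin m) K) (hw : AltF l p w)
    (D : Fin p → Fin l → MvPolynomial (Fin m) K) (a b : Fin p) (hab : D a = D b) (hne : a ≠ b) :
    mext w D = 0 := by
  rw [mext_apply]
  apply Finset.sum_involution (fun J _ => J ∘ Equiv.swap a b)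
  · intro J _
    rw [hw.2 J a b hne]
    have h1 : ∏ s, D s ((J ∘ Equiv.swap a b) s) = ∏ s, D s (J s) := by
      rw [← Equiv.prod_comp (Equiv.swap a b)]
      apply Finset.prod_congr rfl
      intro s _
      simp only [Function.comp_apply, Equiv.swap_apply_self]
      have h2 : D (Equiv.swap a b s) = D s := by
        by_cases h3 : s = a
        · subst h3; rw [Equiv.swap_apply_left, hab]
        · by_cases h4 : s = b
          · subst h4; rw [Equiv.swap_apply_right, hab]
          · rw [Equiv.swap_apply_of_ne_of_ne h3 h4]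
      rw [h2]
    rw [h1]
    ring
  · intro J _ hJ hcon
    apply hJ
    have h1 : ¬ Function.Injective J := by
      intro hinj
      have h2 := congrFun hcon a
      simp only [Function.comp_apply, Equiv.swap_apply_left] at h2
      exact hne (hinj h2).symm
    rw [hw.1 J h1, zero_mul]
  · intro J _
    exact Finset.mem_univ _
  · intro J _
    ext1 s
    simp

/-- the alternating extension -/
noncomputable def aext {l m p : ℕ} (w : (Fin p → Fin l) → MvPolynomial (Fin m) K)
    (hw : AltF l p w) : (Fin l → MvPolynomial (Fin m) K) [⋀^Fin p]→ₗ[MvPolynomial (Fin m) K]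
      (MvPolynomial (Fin m) K) :=
  { mext w with map_eq_zero_of_eq' := fun D a b hab hne => mext_alt w hw D a b hab hne }

lemma aext_apply {l m p : ℕ} (w : (Fin p → Fin l) → MvPolynomial (Fin m) K)
    (hw : AltF l p w) (D : Fin p → Fin l → MvPolynomial (Fin m) K) :
    aext w hw D = ∑ J : Fin p → Fin l, w J * ∏ s, D s (J s) := mext_apply w D

lemma aext_basis {l m p : ℕ} (w : (Fin p → Fin l) → MvPolynomial (Fin m) K)
    (hw : AltF l p w) (J : Fin p → Fin l) :
    aext w hw (fun s => Pi.single (J s) 1) = w J := by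
  rw [aext_apply, Finset.sum_eq_single J]
  · simp
  · intro J' _ hJ'
    have : ∃ s, J' s ≠ J s := by
      by_contra hcon
      push Not at hcon
      exact hJ' (funext hcon)
    obtain ⟨s, hs⟩ := this
    rw [Finset.prod_eq_zero (Finset.mem_univ s), mul_zero]
    rw [Pi.single_apply, if_neg hs]
  · simp

lemma altF_of_map {l m p : ℕ} (θ : (Fin l → MvPolynomial (Fin m) K) [⋀^Fin p]→ₗ[MvPolynomial (Fin m) K]
      (MvPolynomial (Fin m) K)) (w : (Fin p → Fin l) → MvPolynomial (Fin m) K)
    (h : ∀ J, w J = θ (fun s => Pi.single (J s) 1)) : AltF l p w := by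
  constructor
  · intro J hJ
    rw [h]
    apply θ.map_eq_zero_of_not_injective
    intro hinj
    apply hJ
    intro s t hst
    apply hinj
    simp only [hst]
  · intro J a b hab
    rw [h, h]
    have := θ.map_swap (fun s => Pi.single (J s) 1) hab
    rw [← this]
    rfl

/-- wedging preserves the alternating functions -/
lemma altF_eps {l m p : ℕ} (v : Fin l → K) (w : (Fin p → Fin l) → MvPolynomial (Fin m) K)
    (hw : AltF l p w) : AltF l (p+1) (act ((opsT K l).epsV v p) w) := by
  let φ : (Fin l → MvPolynomial (Fin m) K) →ₗ[MvPolynomial (Fin m) K] MvPolynomial (Fin m) K :=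
    ∑ i, (C (v i) : MvPolynomial (Fin m) K) • LinearMap.proj i
  let f : (Fin l → MvPolynomial (Fin m) K) →ₗ[MvPolynomial (Fin m) K]
      ((Fin l → MvPolynomial (Fin m) K) [⋀^Fin p]→ₗ[MvPolynomial (Fin m) K]
        (MvPolynomial (Fin m) K)) := φ.smulRight (aext w hw)
  apply altF_of_map (AlternatingMap.alternatizeUncurryFin f)
  intro J
  rw [AlternatingMap.alternatizeUncurryFin_apply]
  have h1 : ∀ i : Fin l, φ (Pi.single i 1) = C (v i) := by
    intro i
    simp only [φ, LinearMap.sum_apply, LinearMap.smul_apply, LinearMap.proj_apply, smul_eq_mul]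
    rw [Finset.sum_eq_single i]
    · simp
    · intro b _ hb
      rw [Pi.single_apply, if_neg hb, mul_zero]
    · simp
  rw [Ops.epsV, act_sum_mat, Finset.sum_apply]
  simp only [act_smul_mat, Pi.smul_apply, opsT, act_epsT, Finset.smul_sum]
  rw [Finset.sum_comm]
  apply Finset.sum_congr rfl
  intro k _
  simp only [f, LinearMap.smulRight_apply, h1, AlternatingMap.smul_apply]
  have h2 : (k.removeNth fun s => (Pi.single (J s) 1 : Fin l → MvPolynomial (Fin m) K)) =
      fun s => Pi.single ((k.removeNth J) s) 1 := rfl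
  rw [h2, aext_basis]
  rw [Finset.sum_eq_single (J k)]
  · rw [if_pos rfl, mul_one, smul_smul, smul_eq_mul, ← C_mul', map_mul, map_pow, map_neg, map_one]
    ring
  · intro b _ hb
    rw [if_neg (fun h => hb h.symm)]
    simp
  · simp

end Pool.Agent.Lib.P81a4d5h
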