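import Mathlib
import Pool.Agent.Lib.P81a4d5h.Alt
import Pool.Agent.Lib.P81a4d5h.GT

set_option autoImplicit false
set_option linter.unusedSectionVars false

/-! Logarithmic multiderivations of multiarrangements: they form a system, and the Euler
characteristic is `1` in degree `|m|` and `0` above. -/

open MvPolynomial

namespace Pool.Agent.Lib.P81a4d5h

universe u

variable {K : Type u} [Field K]

/-! ### divisibility by powers of linear forms -/

lemma dvd_cancel {l : ℕ} (a b : Fin l → K) (ha : a ≠ 0) (h : ∀ c : K, b ≠ c • a)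
    (f : MvPolynomial (Fin l) K) (hf : lin a ∣ lin b * f) : lin a ∣ f := by
  cases l with
  | zero => exact absurd (Subsingleton.elim a 0) ha
  | succ l =>
    obtain ⟨i₀, hi₀⟩ : ∃ i, a i ≠ 0 := by
      by_contra hcon
      push Not at hcon
      exact ha (funext hcon)
    rw [← rho_eq_zero_iff' i₀ a hi₀] at hf ⊢
    rw [map_mul, rho_lin, mul_eq_zero] at hf
    rcases hf with hf | hf
    · exfalso
      have h1 : resC i₀ (fun j => a (i₀.succAbove j) / a i₀) b = 0 := by
        by_contra hne
        exact lin_ne_zero hne hf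
      apply h (b i₀ / a i₀)
      ext i
      refine Fin.succAboveCases i₀ ?_ ?_ i
      · simp only [Pi.smul_apply, smul_eq_mul]
        rw [div_mul_cancel₀ _ hi₀]
      · intro j
        have h2 := congrFun h1 j
        simp only [resC, Pi.zero_apply] at h2
        simp only [Pi.smul_apply, smul_eq_mul]
        rw [sub_eq_zero] at h2
        rw [h2]
        ring
    · exact hf

lemma dvd_cancel_pow {l : ℕ} (a b : Fin l → K) (ha : a ≠ 0) (h : ∀ c : K, b ≠ c • a) (m : ℕ)
    (f : MvPolynomial (Fin l) K) (hf : lin a ^ m ∣ lin b * f) : lin a ^ m ∣ f := by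
  induction m generalizing f with
  | zero => simp
  | succ m ih =>
    have h1 : lin a ∣ f := dvd_cancel a b ha h f
      ((dvd_pow_self _ (Nat.succ_ne_zero m)).trans hf)
    obtain ⟨g, rfl⟩ := h1
    rw [pow_succ', mul_left_comm] at hf
    rw [pow_succ']
    exact mul_dvd_mul_left _ (ih g ((mul_dvd_mul_iff_left (lin_ne_zero ha)).1 hf))

lemma pr_smul {l : ℕ} (c : K) (a v : Fin l → K) : pr (c • a) v = c * pr a v := by
  simp only [pr, Pi.smul_apply, smul_eq_mul, Finset.mul_sum, mul_assoc]

lemma dvd_cancel_gg {l : ℕ} (a v : Fin l → K) (ha : a ≠ 0) (hav : pr a v = 0)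
    (L : Multiset (Fin l → K)) (m : ℕ) (f : MvPolynomial (Fin l) K)
    (hf : lin a ^ m ∣ gg L v * f) : lin a ^ m ∣ f := by
  induction L using Multiset.induction_on generalizing f with
  | empty => rwa [gg_zero, one_mul] at hf
  | cons b L ih =>
    by_cases h : pr b v = 0
    · rw [gg_cons_of_eq L v b h] at hf
      exact ih f hf
    · rw [gg_cons_of_ne L v b h, mul_assoc] at hf
      apply ih
      apply dvd_cancel_pow a b ha _ _ _ hf
      intro c hc
      apply h
      rw [hc, pr_smul, hav, mul_zero]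

lemma dvd_hc {l : ℕ} (a : Fin l → K) (m j : ℕ) (f : MvPolynomial (Fin l) K)
    (hf : lin a ^ m ∣ f) : lin a ^ m ∣ homogeneousComponent j f := by
  induction m generalizing f j with
  | zero => simp
  | succ m ih =>
    obtain ⟨g, rfl⟩ := hf
    rw [pow_succ', mul_assoc]
    cases j with
    | zero => rw [hc_zero_lin_mul]; exact dvd_zero _
    | succ j =>
      rw [hc_lin_mul]
      exact mul_dvd_mul_left _ (ih j _ (Dvd.intro _ rfl))

lemma dvd_hD {l : ℕ} (a v : Fin l → K) (hav : pr a v = 0) (m k : ℕ)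
    (f : MvPolynomial (Fin l) K) (hf : lin a ^ m ∣ f) : lin a ^ m ∣ hD v k f := by
  induction m generalizing f with
  | zero => simp
  | succ m ih =>
    obtain ⟨g, rfl⟩ := hf
    rw [pow_succ', mul_assoc, hD_lin_mul_of_zero v a hav]
    exact mul_dvd_mul_left _ (ih _ (Dvd.intro _ rfl))

/-- the multiset of forms with multiplicities -/
def LL {l : ℕ} (A : Finset (Fin l → K)) (mu : (Fin l → K) → ℕ) : Multiset (Fin l → K) :=
  ∑ a ∈ A, Multiset.replicate (mu a) a

lemma card_LL {l : ℕ} (A : Finset (Fin l → K)) (mu : (Fin l → K) → ℕ) :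
    Multiset.card (LL A mu) = ∑ a ∈ A, mu a := by
  simp [LL]

lemma gg_add {l : ℕ} (L L' : Multiset (Fin l → K)) (v : Fin l → K) :
    gg (L + L') v = gg L v * gg L' v := by
  classical
  simp [gg]

lemma lin_pow_dvd_gg {l : ℕ} (A : Finset (Fin l → K)) (mu : (Fin l → K) → ℕ)
    (a v : Fin l → K) (hav : pr a v ≠ 0) (ha : a ∈ A) : lin a ^ mu a ∣ gg (LL A mu) v := by
  classical
  have h1 : LL A mu = Multiset.replicate (mu a) a + ∑ b ∈ A.erase a, Multiset.replicate (mu b) b :=
    (Finset.add_sum_erase A (fun b => Multiset.replicate (mu b) b) ha).symm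
  have h2 : ∀ n : ℕ, gg (Multiset.replicate n a) v = lin a ^ n := by
    intro n
    induction n with
    | zero => simp [gg_zero]
    | succ n ih => rw [Multiset.replicate_succ, gg_cons_of_ne _ _ _ hav, ih, pow_succ']
  rw [h1, gg_add, h2]
  exact Dvd.intro _ rfl

lemma LL_cons {l : ℕ} (A : Finset (Fin l → K)) (mu mu' : (Fin l → K) → ℕ) (b : Fin l → K)
    (hb : b ∈ A) (h1 : mu b = mu' b + 1) (h2 : ∀ a ∈ A, a ≠ b → mu a = mu' a) :
    LL A mu = b ::ₘ LL A mu' := by
  classical
  rw [LL, LL, ← Finset.add_sum_erase A (fun b => Multiset.replicate (mu b) b) hb,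
    ← Finset.add_sum_erase A (fun b => Multiset.replicate (mu' b) b) hb]
  simp only [h1]
  rw [Multiset.replicate_succ, Multiset.cons_add]
  congr 2
  apply Finset.sum_congr rfl
  intro a ha
  rw [h2 a (Finset.mem_of_mem_erase ha) (Finset.ne_of_mem_erase ha)]

/-! ### the modules of logarithmic multiderivations -/

/-- contraction with a covector -/
noncomputable def kv {l m p : ℕ} (a : Fin l → K) (w : (Fin (p+1) → Fin l) → MvPolynomial (Fin m) K)
    (J : Fin p → Fin l) : MvPolynomial (Fin m) K := ∑ i, a i • w (Fin.cons i J)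

/-- the `p`-th logarithmic module as functions of tuples -/
noncomputable def DD {l : ℕ} (A : Finset (Fin l → K)) (mu : (Fin l → K) → ℕ) :
    ∀ p, Submodule K ((Fin p → Fin l) → MvPolynomial (Fin l) K)
  | 0 => ⊤
  | (p+1) =>
    { carrier := {w | AltF l (p+1) w ∧ ∀ a ∈ A, ∀ J : Fin p → Fin l, lin a ^ mu a ∣ kv a w J}
      add_mem' := by
        rintro w w' ⟨h1, h2⟩ ⟨h3, h4⟩
        refine ⟨⟨?_, ?_⟩, ?_⟩
        · intro J hJ
          rw [Pi.add_apply, h1.1 J hJ, h3.1 J hJ, add_zero]
        · intro J a b hab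
          rw [Pi.add_apply, Pi.add_apply, h1.2 J a b hab, h3.2 J a b hab]
          ring
        · intro a ha J
          have : kv a (w + w') J = kv a w J + kv a w' J := by
            simp only [kv, Pi.add_apply, smul_add, Finset.sum_add_distrib]
          rw [this]
          exact dvd_add (h2 a ha J) (h4 a ha J)
      zero_mem' := by
        refine ⟨⟨fun _ _ => rfl, fun _ _ _ _ => by simp⟩, ?_⟩
        intro a _ J
        simp [kv]
      smul_mem' := by
        rintro r w ⟨h1, h2⟩
        refine ⟨⟨?_, ?_⟩, ?_⟩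
        · intro J hJ
          rw [Pi.smul_apply, h1.1 J hJ, smul_zero]
        · intro J a b hab
          rw [Pi.smul_apply, Pi.smul_apply, h1.2 J a b hab, smul_neg]
        · intro a ha J
          have : kv a (r • w) J = r • kv a w J := by
            simp only [kv, Pi.smul_apply, Finset.smul_sum]
            apply Finset.sum_congr rfl
            intro i _
            rw [smul_comm]
          rw [this, smul_eq_C_mul]
          exact (h2 a ha J).mul_left _ }

lemma mem_DD_succ {l : ℕ} {A : Finset (Fin l → K)} {mu : (Fin l → K) → ℕ} {p : ℕ}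
    {w : (Fin (p+1) → Fin l) → MvPolynomial (Fin l) K} :
    w ∈ DD A mu (p+1) ↔
      AltF l (p+1) w ∧ ∀ a ∈ A, ∀ J : Fin p → Fin l, lin a ^ mu a ∣ kv a w J := Iff.rfl

lemma altF_zero {l m : ℕ} (w : (Fin 0 → Fin l) → MvPolynomial (Fin m) K) : AltF l 0 w :=
  ⟨fun J hJ => absurd (fun s => Fin.elim0 s) hJ, fun _ a => Fin.elim0 a⟩

lemma altF_of_mem {l : ℕ} {A : Finset (Fin l → K)} {mu : (Fin l → K) → ℕ} {p : ℕ}
    {w : (Fin p → Fin l) → MvPolynomial (Fin l) K} (h : w ∈ DD A mu p) : AltF l p w := by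
  cases p with
  | zero => exact altF_zero w
  | succ p => exact (mem_DD_succ.1 h).1

lemma altF_cw {l m p : ℕ} (φ : MvPolynomial (Fin m) K →ₗ[K] MvPolynomial (Fin m) K)
    (w : (Fin p → Fin l) → MvPolynomial (Fin m) K) (h : AltF l p w) : AltF l p (cw φ w) := by
  constructor
  · intro J hJ
    rw [cw_apply, h.1 J hJ, map_zero]
  · intro J a b hab
    rw [cw_apply, cw_apply, h.2 J a b hab, map_neg]

lemma altF_smul {l m p : ℕ} (f : MvPolynomial (Fin m) K)
    (w : (Fin p → Fin l) → MvPolynomial (Fin m) K) (h : AltF l p w) : AltF l p (f • w) := by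
  constructor
  · intro J hJ
    rw [Pi.smul_apply, h.1 J hJ, smul_zero]
  · intro J a b hab
    rw [Pi.smul_apply, Pi.smul_apply, h.2 J a b hab, smul_neg]

lemma altF_of_smul {l m p : ℕ} (f : MvPolynomial (Fin m) K) (hf : f ≠ 0)
    (w : (Fin p → Fin l) → MvPolynomial (Fin m) K) (h : AltF l p (f • w)) : AltF l p w := by
  constructor
  · intro J hJ
    have := h.1 J hJ
    rw [Pi.smul_apply, smul_eq_mul, mul_eq_zero] at this
    exact this.resolve_left hf
  · intro J a b hab
    have := h.2 J a b hab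
    rw [Pi.smul_apply, Pi.smul_apply, smul_eq_mul, smul_eq_mul, ← mul_neg] at this
    exact mul_left_cancel₀ hf this

lemma altF_kap {l m p : ℕ} (i : Fin l)
    (w : (Fin (p+1) → Fin l) → MvPolynomial (Fin m) K) (h : AltF l (p+1) w) :
    AltF l p (act ((opsT K l).kap i p) w) := by
  constructor
  · intro J hJ
    rw [opsT, act_kapT]
    apply h.1
    intro hinj
    apply hJ
    intro s t hst
    have := @hinj s.succ t.succ (by simpa using hst)
    exact Fin.succ_injective _ this
  · intro J a b hab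
    rw [opsT, act_kapT, act_kapT]
    have := h.2 (Fin.cons i J) a.succ b.succ (fun h => hab (Fin.succ_injective _ h))
    rw [← this]
    congr 1
    ext1 t
    refine Fin.cases ?_ ?_ t
    · simp only [Fin.cons_zero, Function.comp_apply]
      rw [Equiv.swap_apply_of_ne_of_ne (Fin.succ_ne_zero a).symm (Fin.succ_ne_zero b).symm]
      rfl
    · intro t
      simp only [Fin.cons_succ, Function.comp_apply]
      rw [Equiv.swap_apply_def, Equiv.swap_apply_def]
      simp only [Fin.succ_inj]
      split_ifs <;> simp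

lemma altF_cons_cons {l m p : ℕ}
    (w : (Fin (p+2) → Fin l) → MvPolynomial (Fin m) K) (h : AltF l (p+2) w) (i j : Fin l)
    (J : Fin p → Fin l) :
    w (Fin.cons i (Fin.cons j J)) = - w (Fin.cons j (Fin.cons i J)) := by
  rw [← h.2 (Fin.cons j (Fin.cons i J)) 0 1 (by simp)]
  congr 1
  ext1 t
  refine Fin.cases ?_ ?_ t
  · simp
  · intro t
    refine Fin.cases ?_ ?_ t
    · simp
    · intro t
      simp only [Function.comp_apply]
      rw [Equiv.swap_apply_of_ne_of_ne]
      · rfl
      · exact Fin.succ_ne_zero _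
      · intro hcon
        have := congrArg Fin.val hcon
        simp at this

lemma kv_smul {l m p : ℕ} (a : Fin l → K) (f : MvPolynomial (Fin m) K)
    (w : (Fin (p+1) → Fin l) → MvPolynomial (Fin m) K) (J : Fin p → Fin l) :
    kv a (f • w) J = f * kv a w J := by
  simp only [kv, Pi.smul_apply, Finset.mul_sum, smul_eq_mul]
  apply Finset.sum_congr rfl
  intro i _
  rw [mul_smul_comm]

lemma kv_cw {l m p : ℕ} (a : Fin l → K) (φ : MvPolynomial (Fin m) K →ₗ[K] MvPolynomial (Fin m) K)
    (w : (Fin (p+1) → Fin l) → MvPolynomial (Fin m) K) (J : Fin p → Fin l) :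
    kv a (cw φ w) J = φ (kv a w J) := by
  simp only [kv, cw_apply, map_sum, map_smul]

lemma kv_kap {l m p : ℕ} (a : Fin l → K) (i : Fin l)
    (w : (Fin (p+2) → Fin l) → MvPolynomial (Fin m) K) (h : AltF l (p+2) w) (J : Fin p → Fin l) :
    kv a (act ((opsT K l).kap i (p+1)) w) J = - kv a w (Fin.cons i J) := by
  simp only [kv, opsT, act_kapT]
  rw [← Finset.sum_neg_distrib]
  apply Finset.sum_congr rfl
  intro j _
  rw [altF_cons_cons w h i j J, smul_neg]

lemma kv_eq_act {l m p : ℕ} (a : Fin l → K)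
    (w : (Fin (p+1) → Fin l) → MvPolynomial (Fin m) K) (J : Fin p → Fin l) :
    kv a w J = act (∑ i, a i • kapT K l i p) w J := by
  rw [act_sum_mat, Finset.sum_apply]
  simp only [act_smul_mat, Pi.smul_apply, act_kapT, kv]

lemma kv_eps_zero {l m : ℕ} (a v : Fin l → K)
    (w : (Fin 0 → Fin l) → MvPolynomial (Fin m) K) (J : Fin 0 → Fin l) :
    kv a (act ((opsT K l).epsV v 0) w) J = pr a v • w J := by
  rw [kv_eq_act, act_act, Ops.epsV, Matrix.sum_mul]
  simp only [Matrix.mul_sum, Matrix.smul_mul, Matrix.mul_smul]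
  have h : ∀ i j, kapT K l i 0 * (opsT K l).eps j 0 = if i = j then 1 else 0 := opsT_car0 l
  simp only [h, smul_ite, smul_zero]
  simp only [Finset.sum_ite_eq, Finset.mem_univ, if_true]
  rw [act_sum_mat, Finset.sum_apply, pr, Finset.sum_smul]
  apply Finset.sum_congr rfl
  intro i _
  rw [smul_smul, act_smul_mat, act_one, Pi.smul_apply, mul_comm (v i)]

lemma kv_eps {l m p : ℕ} (a v : Fin l → K)
    (w : (Fin (p+1) → Fin l) → MvPolynomial (Fin m) K) (J : Fin (p+1) → Fin l) :
    kv a (act ((opsT K l).epsV v (p+1)) w) J = pr a v • w J -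
      act ((opsT K l).epsV v p) (kv a w) J := by
  have h0 : kv a w = act (∑ i, a i • kapT K l i p) w := by
    ext1 J'
    exact kv_eq_act a w J'
  rw [h0, kv_eq_act, act_act, act_act, eq_sub_iff_add_eq]
  rw [← Pi.add_apply, ← act_add_mat]
  have h1 : (∑ i, a i • kapT K l i (p+1)) * (opsT K l).epsV v (p+1) +
      (opsT K l).epsV v p * (∑ i, a i • kapT K l i p) = pr a v • 1 := by
    rw [Ops.epsV, Ops.epsV, Matrix.sum_mul, Matrix.sum_mul]
    simp only [Matrix.mul_sum, Matrix.smul_mul, Matrix.mul_smul]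
    rw [Finset.sum_comm (f := fun x i => a i • v x • ((opsT K l).eps x p * kapT K l i p)),
      ← Finset.sum_add_distrib]
    simp only [← Finset.sum_add_distrib]
    have h : ∀ i j, kapT K l i (p+1) * (opsT K l).eps j (p+1) + (opsT K l).eps j p * kapT K l i p =
        if i = j then 1 else 0 := fun i j => opsT_car l i j p
    have h2 : ∀ i j, v j • a i • (kapT K l i (p+1) * (opsT K l).eps j (p+1)) +
        a i • v j • ((opsT K l).eps j p * kapT K l i p) =
        (a i * v j) • (if i = j then (1 : Matrix (Fin (p+1) → Fin l) (Fin (p+1) → Fin l) K) else 0) := by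
      intro i j
      rw [← h i j, smul_smul, smul_smul, smul_add, mul_comm (v j) (a i)]
    simp only [h2, smul_ite, smul_zero, Finset.sum_ite_eq, Finset.mem_univ, if_true]
    rw [pr, Finset.sum_smul]
  rw [h1, act_smul_mat, act_one, Pi.smul_apply]

/-- the logarithmic modules form a system -/
theorem sys_DD {l : ℕ} (A : Finset (Fin l → K)) (mu : (Fin l → K) → ℕ) (hA : ∀ a ∈ A, a ≠ 0) :
    Sys (opsT K l) (LL A mu) (l : ℤ) (DD A mu) where
  mul p f w hw := by
    cases p with
    | zero => trivial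
    | succ p =>
      rw [mem_DD_succ] at hw ⊢
      refine ⟨altF_smul f w hw.1, ?_⟩
      intro a ha J
      rw [kv_smul]
      exact (hw.2 a ha J).mul_left f
  hom p j w hw := by
    cases p with
    | zero => trivial
    | succ p =>
      rw [mem_DD_succ] at hw ⊢
      refine ⟨altF_cw _ w hw.1, ?_⟩
      intro a ha J
      rw [kv_cw]
      exact dvd_hc a _ j _ (hw.2 a ha J)
  top p hp := by
    rw [Submodule.eq_bot_iff]
    intro w hw
    have h1 := altF_of_mem hw
    ext1 J
    apply h1.1 J
    intro hinj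
    have := Fintype.card_le_of_injective J hinj
    simp only [Fintype.card_fin] at this
    omega
  kap i p w hw := by
    rw [mem_DD_succ] at hw
    cases p with
    | zero => trivial
    | succ p =>
      rw [mem_DD_succ]
      refine ⟨altF_kap i w hw.1, ?_⟩
      intro a ha J
      rw [kv_kap a i w hw.1]
      exact (hw.2 a ha _).neg_right
  kk0 i p w hw := by
    have h1 := altF_of_mem hw
    ext1 J
    simp only [opsT, act_kapT]
    apply h1.1
    intro hinj
    have := @hinj 0 1 (by simp)
    exact absurd this (by simp)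
  kk i j p w hw := by
    have h1 := altF_of_mem hw
    ext1 J
    simp only [opsT, Pi.add_apply, act_kapT, Pi.zero_apply]
    rw [altF_cons_cons w h1 j i J]
    ring
  der v k p w hw := by
    cases p with
    | zero => trivial
    | succ p =>
      rw [mem_DD_succ] at hw ⊢
      refine ⟨altF_smul _ _ (altF_cw _ _ (altF_of_smul _ (gg_ne_zero _ _) _ hw.1)), ?_⟩
      intro a ha J
      rw [kv_smul, kv_cw]
      have h1 := hw.2 a ha J
      rw [kv_smul] at h1
      by_cases hav : pr a v = 0
      · have h2 := dvd_cancel_gg a v (hA a ha) hav _ _ _ h1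
        exact (dvd_hD a v hav _ k _ h2).mul_left _
      · exact (lin_pow_dvd_gg A mu a v hav ha).mul_right _
  eps v p w hw := by
    have halt : AltF l p w := altF_of_smul _ (gg_ne_zero _ _) _ (altF_of_mem hw)
    rw [mem_DD_succ]
    refine ⟨altF_smul _ _ (altF_eps v w halt), ?_⟩
    intro a ha J
    rw [kv_smul]
    by_cases hav : pr a v = 0
    · cases p with
      | zero =>
        rw [kv_eps_zero, hav, zero_smul, mul_zero]
        exact dvd_zero _
      | succ p =>
        rw [kv_eps, hav, zero_smul, zero_sub, mul_neg]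
        apply Dvd.dvd.neg_right
        rw [mem_DD_succ] at hw
        have h1 : ∀ J', lin a ^ mu a ∣ kv a w J' := by
          intro J'
          have h2 := hw.2 a ha J'
          rw [kv_smul] at h2
          exact dvd_cancel_gg a v (hA a ha) hav _ _ _ h2
        apply Dvd.dvd.mul_left
        rw [act_apply]
        apply Finset.dvd_sum
        intro J' _
        rw [smul_eq_C_mul]
        exact (h1 J').mul_left _
    · exact (lin_pow_dvd_gg A mu a v hav ha).mul_right _

lemma colon_DD {l : ℕ} (A : Finset (Fin l → K)) (mu mu' : (Fin l → K) → ℕ) (b : Fin l → K)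
    (hA : ∀ a ∈ A, a ≠ 0) (hAb : ∀ a ∈ A, a ≠ b → ∀ c : K, b ≠ c • a)
    (hb : b ∈ A) (h1 : mu b = mu' b + 1) (h2 : ∀ a ∈ A, a ≠ b → mu a = mu' a) :
    colon b (DD A mu) = DD A mu' := by
  ext p w
  rw [mem_colon]
  cases p with
  | zero => exact iff_of_true trivial trivial
  | succ p =>
    rw [mem_DD_succ, mem_DD_succ]
    constructor
    · rintro ⟨h3, h4⟩
      refine ⟨altF_of_smul _ (lin_ne_zero (hA b hb)) _ h3, ?_⟩
      intro a ha J
      have h5 := h4 a ha J
      rw [kv_smul] at h5
      by_cases hab : a = b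
      · subst hab
        rw [h1, pow_succ'] at h5
        exact (mul_dvd_mul_iff_left (lin_ne_zero (hA a ha))).1 h5
      · rw [h2 a ha hab] at h5
        exact dvd_cancel_pow a b (hA a ha) (hAb a ha hab) _ _ h5
    · rintro ⟨h3, h4⟩
      refine ⟨altF_smul _ _ h3, ?_⟩
      intro a ha J
      rw [kv_smul]
      by_cases hab : a = b
      · subst hab
        rw [h1, pow_succ']
        exact mul_dvd_mul_left _ (h4 a ha J)
      · rw [h2 a ha hab]
        exact (h4 a ha J).mul_left _

/-- top degree elements of the logarithmic module are divisible by every form of positive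
multiplicity -/
lemma dvd_top {l : ℕ} (A : Finset (Fin (l+1) → K)) (mu : (Fin (l+1) → K) → ℕ)
    (a : Fin (l+1) → K) (ha : a ∈ A) (hmu : mu a ≠ 0)
    (i₀ : Fin (l+1)) (hi₀ : a i₀ ≠ 0) (w : (Fin (l+1) → Fin (l+1)) → MvPolynomial (Fin (l+1)) K)
    (hw : w ∈ DD A mu (l+1)) (J : Fin (l+1) → Fin (l+1)) : lin a ∣ w J := by
  rw [mem_DD_succ] at hw
  obtain ⟨h1, h2⟩ := hw
  have key : ∀ J : Fin (l+1) → Fin (l+1), J 0 = i₀ → Function.Injective J → lin a ∣ w J := by
    intro J hJ0 hJ
    have h3 := (dvd_pow_self (lin a) hmu).trans (h2 a ha (fun s => J s.succ))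
    rw [kv, Finset.sum_eq_single i₀] at h3
    · have h4 : (Fin.cons i₀ (fun s => J s.succ) : Fin (l+1) → Fin (l+1)) = J := by
        ext1 t
        refine Fin.cases ?_ ?_ t
        · rw [Fin.cons_zero, hJ0]
        · intro t
          rw [Fin.cons_succ]
      rw [h4, smul_eq_C_mul] at h3
      have hu : IsUnit (C (a i₀) : MvPolynomial (Fin (l+1)) K) := (isUnit_iff_ne_zero.2 hi₀).map C
      exact (hu.dvd_mul_left).1 h3
    · intro i _ hi
      rw [h1.1, smul_zero]
      intro hinj
      obtain ⟨s, hs⟩ := (Finite.injective_iff_surjective.1 hJ) i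
      have hs0 : s ≠ 0 := by
        rintro rfl
        exact hi (by rw [← hs, hJ0])
      obtain ⟨t, rfl⟩ := Fin.exists_succ_eq.2 hs0
      have h5 : (Fin.cons i (fun s => J s.succ) : Fin (l+1) → Fin (l+1)) 0 =
          (Fin.cons i (fun s => J s.succ) : Fin (l+1) → Fin (l+1)) t.succ := by
        rw [Fin.cons_zero, Fin.cons_succ, hs]
      exact absurd (hinj h5) (Fin.succ_ne_zero t).symm
    · simp
  by_cases hJ : Function.Injective J
  · obtain ⟨s, hs⟩ := (Finite.injective_iff_surjective.1 hJ) i₀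
    by_cases hs0 : s = 0
    · subst hs0
      exact key J hs hJ
    · have h3 := key (J ∘ Equiv.swap 0 s) (by simp [hs]) (hJ.comp (Equiv.injective _))
      rw [h1.2 J 0 s (fun h => hs0 h.symm)] at h3
      exact (dvd_neg).1 h3
  · rw [h1.1 J hJ]
    exact dvd_zero _

lemma finrank_WW_base (l : ℕ) (A : Finset (Fin l → K)) (mu : (Fin l → K) → ℕ) :
    Module.finrank K (WW (DD A mu 0) 0) = 1 := by
  have h : WW (DD A mu 0) 0 = Submodule.span K {fun _ => (1 : MvPolynomial (Fin l) K)} := by
    ext w
    rw [mem_WW, Submodule.mem_span_singleton]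
    constructor
    · rintro ⟨_, hw⟩
      have h1 := hw Fin.elim0
      have h1 := h1.totalDegree_le
      rw [Nat.le_zero, totalDegree_eq_zero_iff_eq_C] at h1
      refine ⟨coeff 0 (w Fin.elim0), ?_⟩
      ext1 J
      have : J = Fin.elim0 := Subsingleton.elim _ _
      subst this
      rw [Pi.smul_apply, smul_eq_C_mul, mul_one]
      exact h1.symm
    · rintro ⟨r, rfl⟩
      refine ⟨trivial, ?_⟩
      intro J
      rw [Pi.smul_apply, smul_eq_C_mul, mul_one]
      exact isHomogeneous_C _ _
  rw [h]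
  apply finrank_span_singleton
  intro h0
  have := congrFun h0 Fin.elim0
  simp at this

theorem cc_DD_zero (l : ℕ) (A : Finset (Fin l → K)) (mu : (Fin l → K) → ℕ)
    (h0 : ∀ a ∈ A, a ≠ 0) (hs : ∑ a ∈ A, mu a = 0) (k : ℕ) :
    cc (DD A mu) k = if k = 0 then 1 else 0 := by
  by_cases hk : k = 0
  · subst hk
    rw [if_pos rfl]
    simp only [cc, zero_add, Finset.range_one, Finset.sum_singleton, pow_zero, one_mul]
    rw [finrank_WW_base]
    rfl
  · rw [if_neg hk]
    apply GT l (opsT K l) 0 (LL A mu) (by rw [card_LL, hs]) (l : ℤ) _ (sys_DD A mu h0)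
    push_cast
    omega

theorem cc_DD_succ (l : ℕ) (A : Finset (Fin (l+1) → K)) (h0 : ∀ a ∈ A, a ≠ 0)
    (hli : ∀ a ∈ A, ∀ b ∈ A, a ≠ b → ∀ c : K, b ≠ c • a) :
    ∀ (n : ℕ) (mu : (Fin (l+1) → K) → ℕ), ∑ a ∈ A, mu a = n → ∀ k, n ≤ k →
      cc (DD A mu) k = if k = n then 1 else 0 := by
  classical
  intro n
  induction n with
  | zero =>
    intro mu hs k _
    exact cc_DD_zero (l+1) A mu h0 hs k
  | succ n ih =>
    intro mu hs k hk
    obtain ⟨b, hbA, hbm⟩ : ∃ b ∈ A, mu b ≠ 0 := by
      by_contra hcon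
      push Not at hcon
      rw [Finset.sum_eq_zero hcon] at hs
      omega
    set mu' : (Fin (l+1) → K) → ℕ := Function.update mu b (mu b - 1) with hmu'
    have e1 : mu b = mu' b + 1 := by
      rw [hmu', Function.update_self]
      omega
    have e2 : ∀ a ∈ A, a ≠ b → mu a = mu' a := by
      intro a _ hab
      rw [hmu', Function.update_of_ne hab]
    have hs' : ∑ a ∈ A, mu' a = n := by
      have h1 := card_LL A mu
      rw [LL_cons A mu mu' b hbA e1 e2, Multiset.card_cons, card_LL, hs] at h1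
      omega
    obtain ⟨k, rfl⟩ : ∃ k', k = k' + 1 := ⟨k - 1, by omega⟩
    obtain ⟨i₀, hi₀⟩ : ∃ i, b i ≠ 0 := by
      by_contra hcon
      push Not at hcon
      exact h0 b hbA (funext hcon)
    have hsys := sys_DD A mu h0
    rw [cc_succ hsys b i₀ hi₀ k,
      colon_DD A mu mu' b h0 (fun a ha hab => hli a ha b hbA hab) hbA e1 e2,
      ih mu' hs' k (by omega)]
    rw [LL_cons A mu mu' b hbA e1 e2] at hsys
    have hres := hsys.restrict i₀ (fun j => b (i₀.succAbove j) / b i₀)
    rw [Multiset.map_cons] at hres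
    have hz : resC i₀ (fun j => b (i₀.succAbove j) / b i₀) b = 0 := by
      ext1 j
      simp only [resC, Pi.zero_apply]
      rw [mul_div_cancel₀ _ hi₀, sub_self]
    have hres1 := hres.drop_zero hz
    have hres2 : Sys ((opsT K (l+1)).res i₀ (fun j => b (i₀.succAbove j) / b i₀))
        ((LL A mu').map (resC i₀ (fun j => b (i₀.succAbove j) / b i₀))) (l : ℤ)
        (resN i₀ (fun j => b (i₀.succAbove j) / b i₀) (DD A mu)) := by
      refine ⟨hres1.mul, hres1.hom, ?_, hres1.kap, hres1.kk0, hres1.kk, hres1.der, hres1.eps⟩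
      intro p hp
      by_cases hp2 : ((l+1 : ℕ) : ℤ) < p
      · exact hres1.top p hp2
      · obtain rfl : p = l + 1 := by push_cast at hp2; omega
        rw [Submodule.eq_bot_iff]
        rintro _ ⟨w, hw, rfl⟩
        ext1 J
        rw [cw_apply, AlgHom.toLinearMap_apply, Pi.zero_apply, rho_eq_zero_iff' i₀ b hi₀]
        exact dvd_top A mu b hbA hbm i₀ hi₀ w hw J
    have hvan := GT l _ n _ (by rw [Multiset.card_map, card_LL, hs']) (l : ℤ) _ hres2 (k+1)
      (by push_cast; omega)
    rw [hvan, add_zero]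
    simp only [add_left_inj]

/-- the Euler characteristic of the logarithmic modules of a multiarrangement -/
theorem cc_DD (l : ℕ) (A : Finset (Fin l → K)) (mu : (Fin l → K) → ℕ) (h0 : ∀ a ∈ A, a ≠ 0)
    (hli : ∀ a ∈ A, ∀ b ∈ A, a ≠ b → ∀ c : K, b ≠ c • a) (k : ℕ) (hk : ∑ a ∈ A, mu a ≤ k) :
    cc (DD A mu) k = if k = ∑ a ∈ A, mu a then 1 else 0 := by
  cases l with
  | zero =>
    have hs : ∑ a ∈ A, mu a = 0 := by
      apply Finset.sum_eq_zero
      intro a ha
      exact absurd (Subsingleton.elim a 0) (h0 a ha)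
    rw [hs]
    exact cc_DD_zero 0 A mu h0 hs k
  | succ l => exact cc_DD_succ l A h0 hli _ mu rfl k hk

end Pool.Agent.Lib.P81a4d5h
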